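import Mathlib
import Pool.Agent.Y855.HT.Ext

/-!
# The circuit conjecture for cyclically edge-connected cubic graphs fails for every `k ≥ 6`,
in every graph
-/

namespace Pool.Agent.Results.MP_c13936_co.EveryK

open SimpleGraph Pool.Agent.Y855.HT

/-- (1) In every cyclically `k`-edge-connected cubic graph `G` with `k ≥ 5`, for every path
`a - b - c` of `G`, the edges leaving `{a, b, c}` are five edges which induce a path system and lie
on no circuit, however large `k` is.
(2) For every `k ≥ 6`, every cyclically `k`-edge-connected cubic graph violates the conclusion of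
the conjecture: every path `a - b - c` of `G` gives a set of exactly `k - 1` edges inducing a path
system, containing the five edges leaving `{a, b, c}`, and contained in no circuit.
(3) For all `k ≥ 6` and all `m` there is a vertex-transitive cubic graph violating the conclusion
for `k` which is cyclically `k`-edge-connected and even cyclically `m`-edge-connected. -/
theorem result :
    (∀ k : ℕ, 5 ≤ k → ∀ (V : Type) (_ : Finite V) (G : SimpleGraph V),
      (∀ v : V, (G.neighborSet v).ncard = 3) → CyclicallyEdgeConnected G k →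
      ∀ a b c : V, G.Adj a b → G.Adj b c → a ≠ c →
      (cut G {a, b, c}).ncard = 5 ∧ InducesPathSystem (cut G {a, b, c}) ∧
        ¬ ∃ (v : V) (p : G.Walk v v), p.IsCycle ∧ ∀ e ∈ cut G {a, b, c}, e ∈ p.edges) ∧
    (∀ k : ℕ, 6 ≤ k → ∀ (V : Type) (_ : Finite V) (G : SimpleGraph V),
      (∀ v : V, (G.neighborSet v).ncard = 3) → CyclicallyEdgeConnected G k →
      ∀ a b c : V, G.Adj a b → G.Adj b c → a ≠ c →
      ∃ S ⊆ G.edgeSet, cut G {a, b, c} ⊆ S ∧ S.ncard = k - 1 ∧ InducesPathSystem S ∧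
        ¬ ∃ (v : V) (p : G.Walk v v), p.IsCycle ∧ ∀ e ∈ S, e ∈ p.edges) ∧
    (∀ k m : ℕ, 6 ≤ k → ∃ (V : Type) (_ : Finite V) (G : SimpleGraph V),
      (∀ v : V, (G.neighborSet v).ncard = 3) ∧ (∀ u v : V, ∃ φ : G ≃g G, φ u = v) ∧
      CyclicallyEdgeConnected G k ∧ CyclicallyEdgeConnected G m ∧
      ∃ S ⊆ G.edgeSet, S.ncard = k - 1 ∧ InducesPathSystem S ∧
        ¬ ∃ (v : V) (p : G.Walk v v), p.IsCycle ∧ ∀ e ∈ S, e ∈ p.edges) := by
  have part2 : ∀ k : ℕ, 6 ≤ k → ∀ (V : Type) (_ : Finite V) (G : SimpleGraph V),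
      (∀ v : V, (G.neighborSet v).ncard = 3) → CyclicallyEdgeConnected G k →
      ∀ a b c : V, G.Adj a b → G.Adj b c → a ≠ c →
      ∃ S ⊆ G.edgeSet, cut G {a, b, c} ⊆ S ∧ S.ncard = k - 1 ∧ InducesPathSystem S ∧
        ¬ ∃ (v : V) (p : G.Walk v v), p.IsCycle ∧ ∀ e ∈ S, e ∈ p.edges := by
    intro k hk V _ G hreg hcec a b c hab hbc hac
    obtain ⟨-, -, h1, h2, h3⟩ := five_edges (by omega : 5 ≤ k) hreg hcec hab hbc hac
    obtain ⟨S, hS1, hS2, hS3, hS4⟩ := h3 (k - 1) (by omega) (by omega)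
    exact ⟨S, hS1, hS2, hS3, hS4, fun ⟨v, p, hp, hpS⟩ => h1 ⟨v, p, hp, fun e he => hpS e (hS2 he)⟩⟩
  refine ⟨?_, part2, ?_⟩
  · intro k hk V _ G hreg hcec a b c hab hbc hac
    obtain ⟨h1, h2, h3, -, -⟩ := five_edges hk hreg hcec hab hbc hac
    exact ⟨h1, h2, h3⟩
  · intro k m hk
    obtain ⟨V, hV, G, hreg, htrans, hcec⟩ := exists_graph (max k m)
    have hmono : ∀ j, j ≤ max k m → CyclicallyEdgeConnected G j :=
      fun j hj => ⟨hcec.1, hcec.2.1, fun B hB hlt => hcec.2.2 B hB (lt_of_lt_of_le hlt hj)⟩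
    have hk' := hmono k (le_max_left _ _)
    obtain ⟨u, -, p, -, hp, -, -⟩ := hcec.2.1
    obtain ⟨x, y, hxy, hx, hy, -⟩ := cycle_two G p hp u p.start_mem_support
    have hux : G.Adj u x := p.adj_of_mem_edges hx
    have huy : G.Adj u y := p.adj_of_mem_edges hy
    obtain ⟨S, h1, -, h2, h3, h4⟩ := part2 k hk V hV G hreg hk' x u y hux.symm huy hxy
    exact ⟨V, hV, G, hreg, htrans, hk', hmono m (le_max_right _ _), S, h1, h2, h3, h4⟩

end Pool.Agent.Results.MP_c13936_co.EveryK
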